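import Pool.Agent.H64.IC.Final

/-!
# Orbits of the iterated correlation map need not converge

The map `corr` is the matrix of Pearson correlation coefficients between the rows of a square real
matrix, and `IsCorrNd A` says that `A` is a correlation matrix (positive semidefinite, unit
diagonal) none of whose rows is constant.  For `n = 578`, and for every sufficiently large `n`,
there is an admissible `n × n` matrix whose orbit under `corr` stays admissible, does not converge
and has a nontrivial `ω`-limit set.
-/

namespace Pool.Agent.Results.MP_421f91_an.NonConvergence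

open Filter Topology Pool.Agent.H64.IC

theorem result : ∃ N : ℕ, ∀ n : ℕ, n = 578 ∨ N ≤ n →
    ∃ A : Matrix (Fin n) (Fin n) ℝ,
      IsCorrNd A ∧ (∀ k : ℕ, IsCorrNd (corr^[k] A)) ∧
      (¬ ∃ L : Matrix (Fin n) (Fin n) ℝ, Tendsto (fun k : ℕ => corr^[k] A) atTop (𝓝 L)) ∧
      {L : Matrix (Fin n) (Fin n) ℝ |
        MapClusterPt L atTop (fun k : ℕ => corr^[k] A)}.Nontrivial := by
  obtain ⟨N, hN⟩ := nonConv_large
  refine ⟨N, ?_⟩
  rintro n (rfl | hn)
  · obtain ⟨A, hA⟩ := nonConv_578
    exact ⟨A, hA.nd 0, hA.nd, hA.noconv, hA.omega⟩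
  · obtain ⟨A, hA⟩ := hN n hn
    exact ⟨A, hA.nd 0, hA.nd, hA.noconv, hA.omega⟩

end Pool.Agent.Results.MP_421f91_an.NonConvergence
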